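import Pool.Agent.Helper78.W3.StC

/-!
# Project W3, module DimO: the dimension of `antiO3 k`

The projection onto `antiO3 k` is a weighted average of 36 substitutions; its trace counts fixed points.
-/

set_option autoImplicit false

open Pool.Agent.Helper78.W3 Pool.Agent.Helper14.W3
open Pool.Agent.Helper14.CV (Homog EqC act Tl)

namespace Pool.Agent.Helper69.W3

private lemma card_graph {Z : Type} [Fintype Z] [DecidableEq Z] (f : Z × Z → Z × Z) (g : Z → Z)
    (h : ∀ x y, f (x, y) = (x, y) ↔ x = g y) :
    (Finset.univ.filter fun p : Z × Z => f p = p).card = Fintype.card Z := by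
  have h1 : (Finset.univ.filter fun p : Z × Z => f p = p) =
      Finset.univ.image fun y : Z => (g y, y) := by
    ext ⟨x, y⟩
    simp only [Finset.mem_filter, Finset.mem_univ, true_and, Finset.mem_image, Prod.mk.injEq, h]
    constructor
    · intro hx
      exact ⟨y, hx.symm, rfl⟩
    · rintro ⟨z, hz, rfl⟩
      exact hz.symm
  rw [h1, Finset.card_image_of_injective, Finset.card_univ]
  intro y y' hy
  exact (Prod.mk.inj hy).2

private lemma card_none {Z : Type} [Fintype Z] [DecidableEq Z] (f : Z × Z → Z × Z)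
    (h : ∀ x y, f (x, y) ≠ (x, y)) :
    (Finset.univ.filter fun p : Z × Z => f p = p).card = 0 := by
  rw [Finset.card_eq_zero, Finset.filter_eq_empty_iff]
  rintro ⟨x, y⟩ _
  exact h x y

private lemma card_prod {Z : Type} [Fintype Z] [DecidableEq Z] (f : Z × Z → Z × Z)
    (A B : Finset Z) (h : ∀ x y, f (x, y) = (x, y) ↔ x ∈ A ∧ y ∈ B) :
    (Finset.univ.filter fun p : Z × Z => f p = p).card = A.card * B.card := by
  rw [← Finset.card_product]
  congr 1
  ext ⟨x, y⟩
  simp only [Finset.mem_filter, Finset.mem_univ, true_and, Finset.mem_product, h]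

/-- the translation by `0`, `t` or `u` -/
private def tr {Z : Type} [AddCommGroup Z] (t u : Z) (i : Fin 3) : Z :=
  match i with
  | 0 => 0
  | 1 => t
  | 2 => u

/-- the weights -/
private noncomputable def wt (i : Fin 3) : ℂ :=
  match i with
  | 0 => 2 / 3
  | 1 => -(1 / 3)
  | 2 => -(1 / 3)

/-- the substitutions -/
private def sb {Z : Type} [AddCommGroup Z] (t u : Z) (h : Fin 4 × Fin 3 × Fin 3) (p : Z × Z) : Z × Z :=
  match h with
  | (0, i, j) => (p.1 + tr t u i, p.2 + tr t u j)
  | (1, i, j) => (p.2 + tr t u i, p.1 + tr t u j)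
  | (2, i, j) => (-p.1 + tr t u i, -p.2 + tr t u j)
  | (3, i, j) => (-p.2 + tr t u i, -p.1 + tr t u j)

private lemma dim_aux {Z : Type} [AddCommGroup Z] [Fintype Z] [DecidableEq Z] (t u : Z)
    (htu : t + u = 0) (htt : t + t = u) (huu : u + u = t) (ht0 : t ≠ 0) (hu0 : u ≠ 0)
    (h2 : ∀ z : Z, z + z = 0 → z = 0) (hTrq : S3Trq) (V : Submodule ℂ (Z → Z → ℂ))
    (hV : ∀ F, F ∈ V ↔ ∀ x y, F x y + F (x + t) y + F (x + u) y = 0 ∧
      F x y + F x (y + t) + F x (y + u) = 0 ∧ F y x = F x y ∧ F (-x) (-y) = F x y) :
    (9 : ℂ) * Module.finrank ℂ V = (Fintype.card Z : ℂ) ^ 2 + 3 * Fintype.card Z := by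
  have hut : u + t = 0 := by rw [add_comm]; exact htu
  have e1 : ∀ x : Z, x + t + t = x + u := fun x => by rw [add_assoc, htt]
  have e2 : ∀ x : Z, x + t + u = x := fun x => by rw [add_assoc, htu, add_zero]
  have e3 : ∀ x : Z, x + u + t = x := fun x => by rw [add_assoc, hut, add_zero]
  have e4 : ∀ x : Z, x + u + u = x + t := fun x => by rw [add_assoc, huu]
  have hnt : -t = u := by rw [neg_eq_iff_add_eq_zero]; exact htu
  have hnu : -u = t := by rw [neg_eq_iff_add_eq_zero]; exact hut
  have e5 : ∀ x : Z, -(x + t) = -x + u := fun x => by rw [neg_add, hnt]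
  have e6 : ∀ x : Z, -(x + u) = -x + t := fun x => by rw [neg_add, hnu]
  have hnet : ∀ x : Z, x + t ≠ x := fun x h => ht0 (by simpa using h)
  have hneu : ∀ x : Z, x + u ≠ x := fun x h => hu0 (by simpa using h)
  let W : Submodule ℂ (Z × Z → ℂ) := V.comap (LinearEquiv.curry ℂ ℂ Z Z : _ →ₗ[ℂ] _)
  have hW : ∀ F : Z × Z → ℂ, F ∈ W ↔ ∀ x y, F (x, y) + F (x + t, y) + F (x + u, y) = 0 ∧
      F (x, y) + F (x, y + t) + F (x, y + u) = 0 ∧ F (y, x) = F (x, y) ∧
      F (-x, -y) = F (x, y) := by
    intro F
    change (LinearEquiv.curry ℂ ℂ Z Z F) ∈ V ↔ _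
    rw [hV]
    rfl
  have hfr : Module.finrank ℂ W = Module.finrank ℂ V := by
    have h1 : V = W.map (LinearEquiv.curry ℂ ℂ Z Z : _ →ₗ[ℂ] _) := by
      rw [Submodule.map_comap_eq_of_surjective (LinearEquiv.surjective _)]
    conv_rhs => rw [h1]
    exact (LinearEquiv.finrank_map_eq _ _).symm
  have hsum : ∀ f : Fin 4 × Fin 3 × Fin 3 → ℂ, ∑ h, f h =
      (∑ i, ∑ j, f (0, i, j)) + (∑ i, ∑ j, f (1, i, j)) + (∑ i, ∑ j, f (2, i, j)) +
      (∑ i, ∑ j, f (3, i, j)) := by
    intro f
    simp only [Fintype.sum_prod_type, Fin.sum_univ_four]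
  have key := hTrq (Z × Z) inferInstance inferInstance (Fin 4 × Fin 3 × Fin 3) inferInstance
    (sb t u) (fun h => 1 / 4 * (wt h.2.1 * wt h.2.2)) W ?_ ?_
  · rw [hfr, hsum] at key
    have c0 : ∀ i j, (Finset.univ.filter fun p : Z × Z => sb t u (0, i, j) p = p).card =
        if i = 0 ∧ j = 0 then Fintype.card Z * Fintype.card Z else 0 := by
      intro i j
      by_cases hi : i = 0
      · by_cases hj : j = 0
        · rw [if_pos ⟨hi, hj⟩, card_prod _ Finset.univ Finset.univ, Finset.card_univ]
          intro x y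
          simp [sb, tr, hi, hj]
        · rw [if_neg (fun h => hj h.2)]
          refine card_none _ fun x y h => ?_
          have h1 := (Prod.mk.inj h).2
          fin_cases j
          · exact hj rfl
          · exact hnet y h1
          · exact hneu y h1
      · rw [if_neg (fun h => hi h.1)]
        refine card_none _ fun x y h => ?_
        have h1 := (Prod.mk.inj h).1
        fin_cases i
        · exact hi rfl
        · exact hnet x h1
        · exact hneu x h1
    have c1 : ∀ i j, (Finset.univ.filter fun p : Z × Z => sb t u (1, i, j) p = p).card =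
        if tr t u i + tr t u j = 0 then Fintype.card Z else 0 := by
      intro i j
      by_cases hij : tr t u i + tr t u j = 0
      · rw [if_pos hij]
        refine card_graph _ (fun y => y + tr t u i) fun x y => ?_
        simp only [sb, Prod.mk.injEq]
        constructor
        · intro h
          exact h.1.symm
        · intro h
          exact ⟨h.symm, by rw [h, add_assoc, hij, add_zero]⟩
      · rw [if_neg hij]
        refine card_none _ fun x y h => hij ?_
        obtain ⟨h1, h2⟩ := Prod.mk.inj h
        simp only at h1 h2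
        rw [← h1, add_assoc] at h2
        simpa using h2
    have c2 : ∀ i j, (Finset.univ.filter fun p : Z × Z => sb t u (2, i, j) p = p).card = 1 := by
      intro i j
      have h3 : ∀ l : Fin 3, tr t u l + tr t u l = -tr t u l := by
        intro l
        fin_cases l
        · simp [tr]
        · show t + t = -t
          rw [htt, hnt]
        · show u + u = -u
          rw [huu, hnu]
      have h4 : ∀ (l : Fin 3) (x : Z), -x + tr t u l = x ↔ x ∈ ({-tr t u l} : Finset Z) := by
        intro l x
        rw [Finset.mem_singleton]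
        constructor
        · intro h
          have h5 : (x + tr t u l) + (x + tr t u l) = 0 := by
            have h6 : (x + tr t u l) + (x + tr t u l) = (x + x) + (tr t u l + tr t u l) := by abel
            rw [h6, h3]
            nth_rewrite 1 [← h]
            abel
          exact eq_neg_of_add_eq_zero_left (h2 _ h5)
        · intro h
          rw [h, neg_neg, h3]
      rw [card_prod _ {-tr t u i} {-tr t u j}, Finset.card_singleton, Finset.card_singleton]
      intro x y
      simp only [sb, Prod.mk.injEq]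
      rw [h4, h4]
    have c3 : ∀ i j, (Finset.univ.filter fun p : Z × Z => sb t u (3, i, j) p = p).card =
        if tr t u i = tr t u j then Fintype.card Z else 0 := by
      intro i j
      by_cases hij : tr t u i = tr t u j
      · rw [if_pos hij]
        refine card_graph _ (fun y => -y + tr t u i) fun x y => ?_
        simp only [sb, Prod.mk.injEq]
        constructor
        · intro h
          exact h.1.symm
        · intro h
          refine ⟨h.symm, ?_⟩
          rw [h, hij]
          abel
      · rw [if_neg hij]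
        refine card_none _ fun x y h => hij ?_
        obtain ⟨h1, h2⟩ := Prod.mk.inj h
        simp only at h1 h2
        rw [← h1] at h2
        have h3 : -(-y + tr t u i) + tr t u j = y + (tr t u j - tr t u i) := by abel
        rw [h3] at h2
        have h4 : tr t u j - tr t u i = 0 := by simpa using h2
        exact (sub_eq_zero.1 h4).symm
    simp only [c0, c1, c2, c3, Fin.sum_univ_three, tr, wt] at key
    have n1 : ¬ (t = u) := fun h => by
      apply ht0
      have h1 : t + t = t := by rw [htt, ← h]
      simpa using h1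
    have n2 : ¬ (u = t) := fun h => n1 h.symm
    have n3 : ¬ ((0 : Z) = t) := fun h => ht0 h.symm
    have n4 : ¬ ((0 : Z) = u) := fun h => hu0 h.symm
    simp only [htu, hut, htt, huu, add_zero, zero_add, ht0, hu0, n1, n2, n3, n4, if_true,
      if_false, and_self, and_true, true_and, and_false, false_and, one_ne_zero, Nat.cast_zero,
      mul_zero, Nat.cast_one, mul_one] at key
    have n5 : ¬ ((2 : Fin 3) = 0) := by decide
    have n6 : ¬ ((1 : Fin 3) = 0) := by decide
    simp only [n5, n6, if_false, Nat.cast_zero, mul_zero, add_zero, Nat.cast_mul] at key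
    rw [key]
    ring
  · intro F
    rw [hW]
    intro x y
    simp only [hsum, Fin.sum_univ_three, sb, tr, wt, e1, e2, e3, e4, e5, e6, neg_neg, add_zero]
    refine ⟨by ring, by ring, by ring, by ring⟩
  · intro F hF p
    obtain ⟨x, y⟩ := p
    rw [hW] at hF
    have a1 : ∀ x y, F (x + u, y) = -F (x, y) - F (x + t, y) := fun x y => by
      linear_combination (hF x y).1
    have a2 : ∀ x y, F (x, y + u) = -F (x, y) - F (x, y + t) := fun x y => by
      linear_combination (hF x y).2.1
    have a3 := (hF x y).2.2.1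
    have a4 := (hF x y).2.2.2
    have a5 : F (-y, -x) = F (x, y) := by rw [(hF y x).2.2.2, a3]
    simp only [hsum, Fin.sum_univ_three, sb, tr, wt, add_zero, a1, a2]
    rw [a3, a4, a5]
    ring

theorem hDimO (hTrq : S3Trq) : S3DimO := by
  intro k hk
  obtain ⟨m, rfl⟩ : ∃ m, k = m + 1 := ⟨k - 1, by omega⟩
  have : NeZero (3 ^ (m + 1)) := ⟨pow_ne_zero _ (by norm_num)⟩
  have h3 : ((3 ^ (m + 1) : ℕ) : ZMod (3 ^ (m + 1))) = 0 := ZMod.natCast_self _
  push_cast at h3
  have hm : m + 1 - 1 = m := by omega
  set t : ZMod (3 ^ (m + 1)) := 3 ^ m with ht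
  have h3t : 3 * t = 0 := by rw [ht, ← h3]; ring
  have hne : ∀ c : ℕ, 0 < c → c < 3 → (c : ZMod (3 ^ (m + 1))) * t ≠ 0 := by
    intro c hc0 hc3 h
    have h4 : ((c * 3 ^ m : ℕ) : ZMod (3 ^ (m + 1))) = 0 := by
      push_cast
      exact h
    rw [ZMod.natCast_eq_zero_iff] at h4
    have h5 := Nat.le_of_dvd (by positivity) h4
    have h6 : c * 3 ^ m < 3 ^ (m + 1) := by
      rw [pow_succ, mul_comm (3 ^ m) 3]
      exact Nat.mul_lt_mul_of_pos_right hc3 (by positivity)
    omega
  have ht0 : t ≠ 0 := by
    have := hne 1 (by norm_num) (by norm_num)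
    rwa [Nat.cast_one, one_mul] at this
  have hu0 : 2 * t ≠ 0 := by
    have := hne 2 (by norm_num) (by norm_num)
    exact_mod_cast this
  have h2 : ∀ z : ZMod (3 ^ (m + 1)), z + z = 0 → z = 0 := by
    intro z hz
    have hu : IsUnit ((2 : ℕ) : ZMod (3 ^ (m + 1))) := by
      rw [ZMod.isUnit_iff_coprime]
      exact Nat.Coprime.pow_right _ (by norm_num)
    rw [← two_mul] at hz
    have h4 : ((2 : ℕ) : ZMod (3 ^ (m + 1))) * z = 0 := by exact_mod_cast hz
    exact (hu.mul_right_eq_zero).1 h4
  have key := dim_aux t (2 * t) (by linear_combination h3t) (by ring)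
    (by linear_combination h3t) ht0 hu0 h2 hTrq (antiO3 (m + 1)) (fun F => Iff.rfl)
  rw [ZMod.card] at key
  rw [hm]
  have h7 : (Module.finrank ℂ (antiO3 (m + 1)) : ℂ) = ((3 ^ m * (3 ^ m + 1) : ℕ) : ℂ) := by
    have h8 : (((3 ^ (m + 1) : ℕ)) : ℂ) = 3 * (3 : ℂ) ^ m := by
      push_cast
      ring
    rw [h8] at key
    push_cast
    linear_combination (1 / 9 : ℂ) * key
  exact_mod_cast h7

end Pool.Agent.Helper69.W3
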